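import Mathlib

/-!
# The symmetric Mahler conjecture: definitions

`K ⊂ ℝ^n` symmetric convex body, `vol K * vol K° ≥ 4^n / n!`.
-/

namespace Pool.Agent.H224R2.Mah

open MeasureTheory Set Filter Topology
open scoped ENNReal RealInnerProductSpace

/-! ## Planar part -/

/-- partial derivative in the real direction -/
noncomputable def dx (S : ℂ → ℝ) (u : ℂ) : ℝ := fderiv ℝ S u 1

/-- partial derivative in the imaginary direction -/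
noncomputable def dy (S : ℂ → ℝ) (u : ℂ) : ℝ := fderiv ℝ S u Complex.I

/-- Laplacian -/
noncomputable def lap (S : ℂ → ℝ) (u : ℂ) : ℝ := dx (dx S) u + dy (dy S) u

/-- `S ≥ 0` smooth with `|∇S|² ≤ S ΔS` (i.e. `log S` subharmonic) on `P`. -/
structure PSH (P : Set ℂ) (S : ℂ → ℝ) : Prop where
  smooth : ContDiffOn ℝ 3 S P
  nonneg : ∀ u ∈ P, 0 ≤ S u
  lap_nonneg : ∀ u ∈ P, 0 ≤ lap S u
  grad : ∀ u ∈ P, dx S u ^ 2 + dy S u ^ 2 ≤ S u * lap S u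

/-- The function `U(ζ) = (8/π²) ∑ (-1)^k ζ^(2k+1)/(2k+1)²` (used on the unit disc). -/
noncomputable def U (ζ : ℂ) : ℂ :=
  ((8 / Real.pi ^ 2 : ℝ) : ℂ) * ∑' k : ℕ, (-1 : ℂ) ^ k * ζ ^ (2 * k + 1) / ((2 * k + 1 : ℕ) : ℂ) ^ 2

/-- Its derivative `U'(ζ) = (8/π²) ∑ (-1)^k ζ^(2k)/(2k+1)`. -/
noncomputable def U' (ζ : ℂ) : ℂ :=
  ((8 / Real.pi ^ 2 : ℝ) : ℂ) * ∑' k : ℕ, (-1 : ℂ) ^ k * ζ ^ (2 * k) / ((2 * k + 1 : ℕ) : ℂ)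

/-- The domain `P = U(D)`. -/
noncomputable def PP : Set ℂ := U '' Metric.ball 0 1

/-- The conformal map `h : P → D`, inverse of `U`. -/
noncomputable def hh : ℂ → ℂ := Function.invFunOn U (Metric.ball 0 1)

/-- `S m u = |h u|^(2m)`. -/
noncomputable def SS (m : ℕ) (u : ℂ) : ℝ := ‖hh u‖ ^ (2 * m)

/-- The properties of `P` and `S m` used in the proof. -/
structure Dom (P : Set ℂ) (S : ℕ → ℂ → ℝ) : Prop where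
  isOpen : IsOpen P
  zero_mem : (0 : ℂ) ∈ P
  im_lt : ∀ u ∈ P, |u.im| < 1
  psh : ∀ m, 2 ≤ m → PSH P (S m)
  lt_one : ∀ m, 2 ≤ m → ∀ u ∈ P, S m u < 1
  compact : ∀ m, 2 ≤ m → ∀ t < 1, IsCompact {u | u ∈ P ∧ S m u ≤ t}
  mono : ∀ m, 2 ≤ m → ∀ u ∈ P, ∀ v ∈ P, u.im = v.im → u.re < v.re →
    Real.sign u.re * S m u < Real.sign v.re * S m v
  dx_abs : ∀ m, 2 ≤ m → ∀ u ∈ P, |dx (S m) u| = Real.sign u.re * dx (S m) u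
  dx_le : ∀ m, 2 ≤ m → ∀ u ∈ P, |dx (S m) u| ≤ 2 / Real.pi * (lap (S m) u / (2 * m))
  push : ∀ m, 2 ≤ m → ∀ f : ℝ → ℝ≥0∞, Measurable f →
    ∫⁻ u in P, f (S m u) * ENNReal.ofReal (lap (S m) u / (2 * m)) =
      ENNReal.ofReal (2 * Real.pi) * ∫⁻ s in Ioo (0 : ℝ) 1, f s
  dx_int : Tendsto (fun m : ℕ => ∫⁻ u in P, ENNReal.ofReal |dx (S m) u|) atTop (𝓝 4)
  low : ∀ m, 2 ≤ m → ∀ u ∈ P, ‖u‖ ^ (2 * m) ≤ S m u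
  upp : ∀ m, 2 ≤ m → ∀ u ∈ P, S m u ≤ (2 * ‖u‖) ^ (2 * m)

/-! ## The `n`-dimensional part -/

section
variable {n : ℕ} {ι : Type} [Fintype ι]

/-- `⟨z, a⟩ = ∑ a_k z_k` -/
noncomputable def uu (a : Fin n → ℝ) (z : Fin n → ℂ) : ℂ := ∑ k, (a k : ℂ) * z k

/-- `Ω = {z | ⟨z, a_j⟩ ∈ P for all j}` -/
def Om (P : Set ℂ) (a : ι → Fin n → ℝ) : Set (Fin n → ℂ) := {z | ∀ j, uu (a j) z ∈ P}

/-- `G(z) = ∑ S_j(⟨z, a_j⟩)` -/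
noncomputable def GG (S : ι → ℂ → ℝ) (a : ι → Fin n → ℝ) (z : Fin n → ℂ) : ℝ :=
  ∑ j, S j (uu (a j) z)

/-- `∑ c_j a_j a_jᵀ` -/
noncomputable def mat (c : ι → ℝ) (a : ι → Fin n → ℝ) : Matrix (Fin n) (Fin n) ℝ :=
  ∑ j, c j • Matrix.vecMulVec (a j) (a j)

/-- `M(z) = ∑ m_j(⟨z, a_j⟩) a_j a_jᵀ` -/
noncomputable def MM (m : ι → ℂ → ℝ) (a : ι → Fin n → ℝ) (z : Fin n → ℂ) :
    Matrix (Fin n) (Fin n) ℝ := mat (fun j => m j (uu (a j) z)) a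

/-- `V(t) = ∫_{Ω, G < t} det M` -/
noncomputable def VV (P : Set ℂ) (S : ι → ℂ → ℝ) (a : ι → Fin n → ℝ) (t : ℝ) : ℝ≥0∞ :=
  ∫⁻ z in {z | z ∈ Om P a ∧ GG S a z < t},
    ENNReal.ofReal (MM (fun j => lap (S j)) a z).det

/-- `∇_x G = ∑ (∂_x S_j)(u_j) a_j` -/
noncomputable def vx (S : ι → ℂ → ℝ) (a : ι → Fin n → ℝ) (z : Fin n → ℂ) : Fin n → ℝ :=
  ∑ j, dx (S j) (uu (a j) z) • a j

/-- `∇_y G = ∑ (∂_y S_j)(u_j) a_j` -/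
noncomputable def vy (S : ι → ℂ → ℝ) (a : ι → Fin n → ℝ) (z : Fin n → ℂ) : Fin n → ℝ :=
  ∑ j, dy (S j) (uu (a j) z) • a j

/-- `E = ⟨∇_x G, adj(M) ∇_x G⟩ + ⟨∇_y G, adj(M) ∇_y G⟩` -/
noncomputable def EE (S : ι → ℂ → ℝ) (a : ι → Fin n → ℝ) (z : Fin n → ℂ) : ℝ :=
  vx S a z ⬝ᵥ (Matrix.mulVec (MM (fun j => lap (S j)) a z).adjugate (vx S a z)) +
  vy S a z ⬝ᵥ (Matrix.mulVec (MM (fun j => lap (S j)) a z).adjugate (vy S a z))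

/-- The slab body `Q = {y | |⟨y, a_j⟩| ≤ 1}`. -/
def QQ (a : ι → Fin n → ℝ) : Set (Fin n → ℝ) := {y | ∀ j, |∑ k, a j k * y k| ≤ 1}

end

/-- The polar set in Euclidean space. -/
def polar {n : ℕ} (K : Set (EuclideanSpace ℝ (Fin n))) : Set (EuclideanSpace ℝ (Fin n)) :=
  {y | ∀ x ∈ K, ⟪x, y⟫ ≤ 1}

end Pool.Agent.H224R2.Mah
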